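import Mathlib

/-!
# The finitary linear group over the field with two elements
-/

set_option autoImplicit false

open Set Filter Topology

namespace Pool.Agent.Results.MP_ff84c4_al.FinitaryLinear

/-- The Markov topology: the intersection of all Hausdorff group topologies. -/
def markovTop (G : Type) [Group G] : TopologicalSpace G :=
  sSup {t : TopologicalSpace G | @IsTopologicalGroup G t _ ∧ @T2Space G t}

/-- The centralizer topology, generated by the sets `{x | x * b * x⁻¹ = a * b * a⁻¹}`. -/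
def centTop (G : Type) [Group G] : TopologicalSpace G :=
  TopologicalSpace.generateFrom {U : Set G | ∃ a b : G, U = {x | x * b * x⁻¹ = a * b * a⁻¹}}

/-- the space -/
abbrev V : Type := ℕ →₀ ZMod 2

/-- basis vectors -/
noncomputable abbrev e (i : ℕ) : V := Finsupp.single i 1

/-- the level of an automorphism -/
def Lev (n : ℕ) (g : V ≃ₗ[ZMod 2] V) : Prop :=
  (∀ v : V, ∀ i, n ≤ i → (g v) i = v i) ∧ ∀ i, n ≤ i → g (e i) = e i

theorem Lev.mono {n m : ℕ} (h : n ≤ m) {g : V ≃ₗ[ZMod 2] V} (hg : Lev n g) : Lev m g :=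
  ⟨fun v i hi => hg.1 v i (h.trans hi), fun i hi => hg.2 i (h.trans hi)⟩

theorem Lev.mul {n : ℕ} {g h : V ≃ₗ[ZMod 2] V} (hg : Lev n g) (hh : Lev n h) : Lev n (g * h) :=
  ⟨fun v i hi => by
    rw [LinearEquiv.mul_apply, hg.1 _ i hi, hh.1 v i hi],
   fun i hi => by rw [LinearEquiv.mul_apply, hh.2 i hi, hg.2 i hi]⟩

theorem Lev.inv {n : ℕ} {g : V ≃ₗ[ZMod 2] V} (hg : Lev n g) : Lev n g⁻¹ :=
  ⟨fun v i hi => by
    have := hg.1 (g⁻¹ v) i hi
    rw [← this]
    show (g (g.symm v)) i = v i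
    rw [LinearEquiv.apply_symm_apply],
   fun i hi => by
    show g.symm (e i) = e i
    rw [LinearEquiv.symm_apply_eq, hg.2 i hi]⟩

/-- the finitary linear group -/
def GF : Subgroup (V ≃ₗ[ZMod 2] V) where
  carrier := {g | ∃ n, Lev n g}
  one_mem' := ⟨0, fun _ _ _ => rfl, fun _ _ => rfl⟩
  mul_mem' := by
    rintro g h ⟨n, hg⟩ ⟨m, hh⟩
    exact ⟨max n m, (hg.mono (le_max_left _ _)).mul (hh.mono (le_max_right _ _))⟩
  inv_mem' := by
    rintro g ⟨n, hg⟩
    exact ⟨n, hg.inv⟩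

/-- transvections -/
noncomputable def trL (i j : ℕ) : V →ₗ[ZMod 2] V :=
  LinearMap.id + (LinearMap.toSpanSingleton (ZMod 2) V (e j)).comp (Finsupp.lapply i)

theorem trL_apply (i j : ℕ) (v : V) : trL i j v = v + v i • e j := rfl

theorem trL_inv (i j : ℕ) (hij : i ≠ j) : Function.Involutive (trL i j) := by
  intro v
  rw [trL_apply, trL_apply]
  have h1 : (v + v i • e j) i = v i := by
    rw [Finsupp.add_apply, Finsupp.smul_apply, Finsupp.single_eq_of_ne hij, smul_zero, add_zero]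
  rw [h1, add_assoc, ← add_smul]
  have : ∀ a : ZMod 2, a + a = 0 := by decide
  rw [this, zero_smul, add_zero]

/-- transvections -/
noncomputable def tr (i j : ℕ) (hij : i ≠ j) : V ≃ₗ[ZMod 2] V :=
  LinearEquiv.ofInvolutive (trL i j) (trL_inv i j hij)

theorem tr_apply (i j : ℕ) (hij : i ≠ j) (v : V) : tr i j hij v = v + v i • e j := rfl

theorem lev_tr {n i j : ℕ} (hij : i ≠ j) (hi : i < n) (hj : j < n) : Lev n (tr i j hij) := by
  refine ⟨fun v k hk => ?_, fun k hk => ?_⟩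
  · rw [tr_apply, Finsupp.add_apply, Finsupp.smul_apply, Finsupp.single_eq_of_ne (by omega),
      smul_zero, add_zero]
  · rw [tr_apply, Finsupp.single_eq_of_ne (by omega), zero_smul, add_zero]

/-- transvections as elements of the finitary linear group -/
noncomputable def trG (i j : ℕ) (hij : i ≠ j) : GF :=
  ⟨tr i j hij, max i j + 1, lev_tr hij (by omega) (by omega)⟩

theorem eq_of_basis {g h : V ≃ₗ[ZMod 2] V} (H : ∀ i, g (e i) = h (e i)) : g = h := by
  apply LinearEquiv.toLinearMap_injective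
  exact Finsupp.lhom_ext' fun i => LinearMap.ext_ring (H i)

theorem finite_lev (n : ℕ) : {g : V ≃ₗ[ZMod 2] V | Lev n g}.Finite := by
  let φ : (V ≃ₗ[ZMod 2] V) → (Fin n → Fin n → ZMod 2) := fun g i j => g (e i) j
  refine Set.Finite.of_injOn (f := φ) (t := univ) (fun _ _ => mem_univ _) ?_ (toFinite _)
  intro g hg h hh hgh
  apply eq_of_basis
  intro i
  by_cases hi : i < n
  · ext j
    by_cases hj : j < n
    · exact congrFun (congrFun hgh ⟨i, hi⟩) ⟨j, hj⟩
    · rw [hg.1 _ j (not_lt.mp hj), hh.1 _ j (not_lt.mp hj)]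
  · rw [hg.2 i (not_lt.mp hi), hh.2 i (not_lt.mp hi)]

theorem double (n : ℕ) (F : Set GF) (hF : ∀ g ∈ F, Lev n (g : V ≃ₗ[ZMod 2] V)) (x : GF)
    (hx : x ∈ Set.centralizer (Set.centralizer F)) : Lev n (x : V ≃ₗ[ZMod 2] V) := by
  have key : ∀ i j (hij : i ≠ j), n ≤ i → n ≤ j → ∀ v : V,
      v i • (x : V ≃ₗ[ZMod 2] V) (e j) = ((x : V ≃ₗ[ZMod 2] V) v) i • e j := by
    intro i j hij hi hj v
    have h1 : trG i j hij ∈ Set.centralizer F := by
      intro g hg
      apply Subtype.ext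
      apply eq_of_basis
      intro k
      obtain ⟨h2, h3⟩ := hF g hg
      show (g : V ≃ₗ[ZMod 2] V) (tr i j hij (e k)) = tr i j hij ((g : V ≃ₗ[ZMod 2] V) (e k))
      rw [tr_apply, tr_apply, map_add, map_smul, h3 j hj, h2 _ i hi]
    have h2 := hx _ h1
    have h3 := congrArg (fun y : GF => (y : V ≃ₗ[ZMod 2] V) v) h2
    have h4 : tr i j hij ((x : V ≃ₗ[ZMod 2] V) v) = (x : V ≃ₗ[ZMod 2] V) (tr i j hij v) := h3
    rw [tr_apply, tr_apply, map_add, map_smul] at h4
    exact (add_left_cancel h4).symm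
  have hne : ∀ j, (x : V ≃ₗ[ZMod 2] V) (e j) ≠ 0 := by
    intro j h
    rw [LinearEquiv.map_eq_zero_iff] at h
    have := DFunLike.congr_fun h j
    simp at this
  have h01 : ∀ a : ZMod 2, a ≠ 0 → a = 1 := by decide
  have hb : ∀ j, n ≤ j → (x : V ≃ₗ[ZMod 2] V) (e j) = e j := by
    intro j hj
    have h1 := key (j + 1) j (by omega) (by omega) hj (e (j + 1))
    rw [Finsupp.single_eq_same, one_smul] at h1
    have h2 : ((x : V ≃ₗ[ZMod 2] V) (e (j + 1))) (j + 1) ≠ 0 := by
      intro h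
      rw [h, zero_smul] at h1
      exact hne j h1
    rw [h1, h01 _ h2, one_smul]
  refine ⟨fun v i hi => ?_, hb⟩
  have h1 := key i (i + 1) (by omega) hi (by omega) v
  rw [hb (i + 1) (by omega)] at h1
  have h2 := DFunLike.congr_fun h1 (i + 1)
  simpa using h2.symm

/-- the topology of pointwise convergence -/
noncomputable def ptTop : TopologicalSpace GF :=
  ⨅ v : V, TopologicalSpace.induced (fun g : GF => (g : V ≃ₗ[ZMod 2] V) v) ⊥

theorem isOpen_pt (v w : V) : IsOpen[ptTop] {g : GF | (g : V ≃ₗ[ZMod 2] V) v = w} := by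
  have h1 : ptTop ≤ TopologicalSpace.induced (fun g : GF => (g : V ≃ₗ[ZMod 2] V) v) ⊥ :=
    iInf_le _ v
  exact h1 _ ⟨{w}, trivial, rfl⟩

theorem continuous_to_pt {Y : Type} [TopologicalSpace Y] (f : Y → GF)
    (h : ∀ v w : V, IsOpen {y | (f y : V ≃ₗ[ZMod 2] V) v = w}) :
    @Continuous Y GF _ ptTop f := by
  rw [ptTop, continuous_iInf_rng]
  intro v
  let _ : TopologicalSpace V := ⊥
  rw [continuous_induced_rng]
  refine ⟨fun s _ => ?_⟩
  have : (fun y => (f y : V ≃ₗ[ZMod 2] V) v) ⁻¹' s = ⋃ w ∈ s, {y | (f y : V ≃ₗ[ZMod 2] V) v = w} := by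
    ext y
    simp
  show IsOpen ((fun y => (f y : V ≃ₗ[ZMod 2] V) v) ⁻¹' s)
  rw [this]
  exact isOpen_biUnion fun w _ => h v w

theorem ptGroup : @IsTopologicalGroup GF ptTop _ := by
  let _ : TopologicalSpace GF := ptTop
  refine @IsTopologicalGroup.mk GF ptTop _ (@ContinuousMul.mk GF ptTop _ ?_)
    (@ContinuousInv.mk GF ptTop _ ?_)
  · refine continuous_to_pt _ fun v w => ?_
    have : {y : GF × GF | ((y.1 * y.2 : GF) : V ≃ₗ[ZMod 2] V) v = w} =
        ⋃ u : V, {y : GF × GF | (y.2 : V ≃ₗ[ZMod 2] V) v = u} ∩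
          {y : GF × GF | (y.1 : V ≃ₗ[ZMod 2] V) u = w} := by
      ext y
      simp
    rw [this]
    exact isOpen_iUnion fun u => ((isOpen_pt v u).preimage continuous_snd).inter
      ((isOpen_pt u w).preimage continuous_fst)
  · refine continuous_to_pt _ fun v w => ?_
    have : {y : GF | ((y⁻¹ : GF) : V ≃ₗ[ZMod 2] V) v = w} = {y : GF | (y : V ≃ₗ[ZMod 2] V) w = v} := by
      ext y
      show (y : V ≃ₗ[ZMod 2] V).symm v = w ↔ _
      rw [LinearEquiv.symm_apply_eq]
      exact eq_comm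
    rw [this]
    exact isOpen_pt w v

theorem ptT2 : @T2Space GF ptTop := by
  let _ : TopologicalSpace GF := ptTop
  refine ⟨fun g h hgh => ?_⟩
  have : ∃ i, (g : V ≃ₗ[ZMod 2] V) (e i) ≠ (h : V ≃ₗ[ZMod 2] V) (e i) := by
    by_contra hcon
    push Not at hcon
    exact hgh (Subtype.ext (eq_of_basis hcon))
  obtain ⟨i, hi⟩ := this
  exact ⟨_, _, isOpen_pt (e i) ((g : V ≃ₗ[ZMod 2] V) (e i)), isOpen_pt (e i) _, rfl, rfl,
    Set.disjoint_left.mpr fun x hx hx' => hi (hx.symm.trans hx')⟩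

theorem pt_nhds (U : Set GF) (hU : IsOpen[ptTop] U) (h1 : (1 : GF) ∈ U) :
    ∃ S : Finset V, ∀ g : GF, (∀ v ∈ S, (g : V ≃ₗ[ZMod 2] V) v = v) → g ∈ U := by
  classical
  let _ : TopologicalSpace GF := ptTop
  have h2 : U ∈ 𝓝 (1 : GF) := hU.mem_nhds h1
  have h3 : 𝓝 (1 : GF) = ⨅ v : V, comap (fun g : GF => (g : V ≃ₗ[ZMod 2] V) v)
      (@nhds V ⊥ (((1 : GF) : V ≃ₗ[ZMod 2] V) v)) := by
    rw [show (𝓝 (1 : GF)) = @nhds GF ptTop 1 from rfl, ptTop, nhds_iInf]
    refine iInf_congr fun v => ?_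
    let _ : TopologicalSpace V := ⊥
    rw [nhds_induced]
  rw [h3, mem_iInf] at h2
  obtain ⟨I, hI, W, hW, rfl⟩ := h2
  refine ⟨hI.toFinset, fun g hg => mem_iInter.mpr fun i => ?_⟩
  have h4 := hW i
  rw [mem_comap] at h4
  obtain ⟨t, ht, htW⟩ := h4
  apply htW
  have h5 : ((1 : GF) : V ≃ₗ[ZMod 2] V) i ∈ t := @mem_of_mem_nhds V ⊥ _ _ ht
  have h6 : (g : V ≃ₗ[ZMod 2] V) i = i := hg i (hI.mem_toFinset.mpr i.2)
  show (g : V ≃ₗ[ZMod 2] V) i ∈ t
  rw [h6]
  exact h5

theorem ne : markovTop GF ≠ centTop GF := by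
  intro heq
  have h1 : IsOpen[centTop GF] {x : GF | x * trG 0 1 (by decide) * x⁻¹ =
      1 * trG 0 1 (by decide) * (1 : GF)⁻¹} :=
    TopologicalSpace.isOpen_generateFrom_of_mem ⟨1, trG 0 1 (by decide), rfl⟩
  rw [← heq, markovTop, isOpen_sSup_iff] at h1
  have h2 := h1 ptTop ⟨ptGroup, ptT2⟩
  obtain ⟨S, hS⟩ := pt_nhds _ h2 (by simp)
  obtain ⟨n, hn2, hn⟩ : ∃ n, 2 ≤ n ∧ ∀ v ∈ S, v n = 0 := by
    classical
    refine ⟨(S.sup fun v => v.support.sup id) + 2, by omega, fun v hv => ?_⟩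
    by_contra hne
    have h3 : (S.sup fun v => v.support.sup id) + 2 ∈ v.support := Finsupp.mem_support_iff.mpr hne
    have h4 : id ((S.sup fun v => v.support.sup id) + 2) ≤ v.support.sup id :=
      Finset.le_sup (f := id) h3
    have h5 : v.support.sup id ≤ S.sup fun v => v.support.sup id :=
      Finset.le_sup (f := fun v : V => v.support.sup id) hv
    simp only [id] at h4
    omega
  have h3 := hS (trG n 0 (by omega)) (by
    intro v hv
    show tr n 0 (by omega) v = v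
    rw [tr_apply, hn v hv, zero_smul, add_zero])
  have h4 : trG n 0 (by omega) * trG 0 1 (by decide) = trG 0 1 (by decide) * trG n 0 (by omega) := by
    have : trG n 0 (by omega) * trG 0 1 (by decide) * (trG n 0 (by omega))⁻¹ =
      1 * trG 0 1 (by decide) * (1 : GF)⁻¹ := h3
    rw [mul_inv_eq_iff_eq_mul, one_mul, inv_one, mul_one] at this
    exact this
  have h5 := congrArg (fun y : GF => (y : V ≃ₗ[ZMod 2] V) (e n)) h4
  have h6 : tr n 0 (by omega) (tr 0 1 (by decide) (e n)) = tr 0 1 (by decide) (tr n 0 (by omega) (e n)) :=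
    h5
  have h7 : (e n : V) 0 = 0 := Finsupp.single_eq_of_ne (by omega)
  have h8 : (e n : V) n = 1 := Finsupp.single_eq_same
  rw [tr_apply 0 1, h7, zero_smul, add_zero, tr_apply n 0, h8, one_smul, tr_apply 0 1] at h6
  have h9 := DFunLike.congr_fun h6 1
  have g0 : (e 0 : V) 0 = 1 := Finsupp.single_eq_same
  have g1 : (e 1 : V) 1 = 1 := Finsupp.single_eq_same
  have g2 : (e n : V) 1 = 0 := Finsupp.single_eq_of_ne (by omega)
  have g3 : (e 0 : V) 1 = 0 := Finsupp.single_eq_of_ne (by omega)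
  rw [Finsupp.add_apply, Finsupp.add_apply, Finsupp.add_apply, Finsupp.smul_apply,
    Finsupp.add_apply, g0, g1, g2, g3, h7] at h9
  exact absurd h9 (by decide)

/-- Q1 has a negative answer, also for countable groups: there is a countable group with trivial
center and finite double centralizers whose Markov topology differs from its centralizer
topology. -/
theorem result : ∃ (G : Type) (_ : Group G), Countable G ∧ Subgroup.center G = ⊥ ∧
    (∀ F : Set G, F.Finite → (Set.centralizer (Set.centralizer F)).Finite) ∧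
    markovTop G ≠ centTop G := by
  refine ⟨GF, inferInstance, ?_, ?_, ?_, ne⟩
  · have h1 : (univ : Set GF) = ⋃ n, {g : GF | Lev n (g : V ≃ₗ[ZMod 2] V)} := by
      ext g
      simp only [mem_univ, mem_iUnion, true_iff]
      exact g.2
    rw [← Set.countable_univ_iff, h1]
    exact countable_iUnion fun n =>
      ((finite_lev n).preimage Subtype.val_injective.injOn).countable
  · rw [Subgroup.eq_bot_iff_forall]
    intro x hx
    have h1 : Lev 0 (x : V ≃ₗ[ZMod 2] V) := double 0 ∅ (by simp) x (by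
      intro g _
      exact (Subgroup.mem_center_iff.mp hx g))
    apply Subtype.ext
    apply eq_of_basis
    intro i
    exact h1.2 i (Nat.zero_le i)
  · intro F hF
    have h1 : ∃ n, ∀ g ∈ F, Lev n (g : V ≃ₗ[ZMod 2] V) := by
      have h2 : ∀ g : GF, ∃ n, Lev n (g : V ≃ₗ[ZMod 2] V) := fun g => g.2
      choose l hl using h2
      refine ⟨hF.toFinset.sup l, fun g hg => (hl g).mono (Finset.le_sup (hF.mem_toFinset.mpr hg))⟩
    obtain ⟨n, hn⟩ := h1
    exact ((finite_lev n).preimage Subtype.val_injective.injOn).subset fun x hx => double n F hn x hx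

end Pool.Agent.Results.MP_ff84c4_al.FinitaryLinear
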